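import Pool.Agent.J4H47.MG.Final

set_option autoImplicit false

/-!
# The movable cone conjecture is reduced to the simply connected factors

Let `Y` be a smooth projective variety with numerically trivial canonical class. By the decomposition
theorem of Beauville and Bogomolov `Y = (A × F_1 × … × F_k) / G`, where `A` is an abelian variety, the
`F_i` are simply connected Calabi-Yau or hyperkähler manifolds, and `G` is a finite group which acts
freely and diagonally, by affine transformations on `A` and by automorphisms of `F = F_1 × … × F_k`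
(which may permute the factors).

Let `Mov^+(Y)` be the convex hull of the rational classes in the closed movable cone, and
`Mov^e(Y)` the intersection of the closed movable cone and the effective cone. The theorem says:

1. If for each `F_i` the translates of a rational polyhedral cone in the closed movable cone, under some
   group `Ψ_i` of birational automorphisms, cover the interior of the movable cone of `F_i`, then there
   is a rational polyhedral cone in `Mov^+(Y)` which is a fundamental domain for the action of `Bir(Y)`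
   on `Mov^+(Y)`. For hyperkähler manifolds this assumption was proved by Markman.
2. If for each `F_i` the translates of a rational polyhedral cone in `Mov^e(F_i)` cover `Mov^e(F_i)`
   (the weak form of the movable cone conjecture), then `Mov^e(Y) = Mov^+(Y)`, and so some rational
   polyhedral cone is a fundamental domain for the action of `Bir(Y)` on `Mov^e(Y)` (the strong form).

So the conjecture for varieties with trivial canonical class is reduced to strict Calabi-Yau manifolds
of dimension at least three and hyperkähler manifolds, where it is known for the latter (Markman,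
Amerik-Verbitsky) and for K3 surfaces (Sterk): it holds for every `Y` whose decomposition has no
strict Calabi-Yau factor.

More generally, the theorem (with the group of pseudo-automorphisms of `Y`, which is `Bir(Y)` if the
canonical class is trivial) is proved for all quotients `Y = (A × F) / G` by finite groups which act
diagonally, where `F = F_1 × … × F_k` is a product of normal projective varieties, `ℚ`-factorial with
free class groups; `G` may have fixed points and fixed divisors, except that no element of `G` acts
trivially on `F` and as a reflection on `A` (so that the restriction of the canonical class of `Y` to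
the curves `C × {point}` is numerically trivial). Such an `F` is described by its Cox ring
`R = ⨁ 𝒜 β`, `𝒜 β = H⁰(F, O_F(β))`, and its pseudo-automorphisms are given by the automorphisms of `R`
which permute the pieces.

The proof: the closed movable cone and the effective cone of `F` are the products of those of the
`F_i` (a divisor of a pullback of a section from `F_i` is a pullback from `F_i`), which gives the weak
form for `F`. The classes of `Y` are pairs of an invariant hermitian form and a `G`-invariant class of
`F`. The norms under `G` of the sections of a movable class have no common divisor, so the movable cone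
of `Y` is determined by that of `F`. Its invariant part is covered by the translates of finitely many
classes under the centraliser of `G`, the elements of the centraliser lift to pseudo-automorphisms of
`Y`, and rational boundary points are covered since only finitely many translates of a polyhedral cone
meet the interior of another one. The forms are treated by the reduction theory of the starting files.

`MovableF`, `movConeF`, `IsVariety`, `HoldsBig`, `HoldsM`, `IsProduct` and `ContainsProduct` are defined
in `Pool.Agent.J4H47.MG.Defs`; `real`, `effConeF`, `IsAction`, `hat`, `NormalizesP` and `IsPullbackP` in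
`Pool.Agent.J4H47.CG.Defs`; `Cl`, `Grp`, `vert`, `IsQuotient`, `Sheaf`, `N1`, `integral`, `effective`,
`movable`, `movCone` and `effCone` in `Pool.Agent.X324.CF.Defs`; `IsTorusQuotient` in
`Pool.Agent.W594.SYZ.Defs2`; `IsPositiveForm` in `Pool.Agent.W594.SYZ.TQDefs`; `OnMirror` in
`Pool.Agent.TH735.AQ.MirDefs`; `LinGrp`, `Preserves` and `IsFundDomain` in `Pool.Agent.Y167.Stm`;
`cone` in `Pool.Agent.Y167.ConeDef`.
-/

namespace Pool.Agent.Results.MP_e39d36_ag.BeauvilleBogomolov

open Pool.Agent.W594.SYZ2 Pool.Agent.TH735.AQ Pool.Agent.X324.CF Pool.Agent.J4H47.MG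
open Pool.Agent.J4H47.CG (NormalizesP IsPullbackP)
open Pool.Agent.Y167 (cone)
open Pool.Agent.Y167.CC (LinGrp Preserves IsFundDomain)

/-- The space `N^1(Y)`. -/
abbrev NS {V R : Type*} [NormedAddCommGroup V] [NormedSpace ℂ V] [CommRing R] [Algebra ℂ R] {ρ : ℕ}
    (𝒜 : Cl ρ → Submodule ℂ R) (Γ : Grp V R) : Type _ := N1 𝒜 Γ (LinearMap.id : V →ₗ[ℂ] V)

/-- The closed movable cone of `Y`. -/
def movC {V R : Type*} [NormedAddCommGroup V] [NormedSpace ℂ V] [CommRing R] [Algebra ℂ R] {ρ : ℕ}
    (𝒜 : Cl ρ → Submodule ℂ R) (Γ : Grp V R) : Set (NS 𝒜 Γ) := movCone 𝒜 Γ LinearMap.id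

/-- The effective movable cone `Mov^e(Y)`: the intersection of the closed movable cone and the
effective cone. -/
def movEff {V R : Type*} [NormedAddCommGroup V] [NormedSpace ℂ V] [CommRing R] [Algebra ℂ R] {ρ : ℕ}
    (𝒜 : Cl ρ → Submodule ℂ R) (Γ : Grp V R) : Set (NS 𝒜 Γ) :=
  movC 𝒜 Γ ∩ effCone 𝒜 Γ LinearMap.id

/-- The cone `Mov^+(Y)`: the convex hull of the rational classes in the closed movable cone. -/
def movPlus {V R : Type*} [NormedAddCommGroup V] [NormedSpace ℂ V] [CommRing R] [Algebra ℂ R] {ρ : ℕ}
    (𝒜 : Cl ρ → Submodule ℂ R) (Γ : Grp V R) : Set (NS 𝒜 Γ) :=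
  convexHull ℝ (movC 𝒜 Γ ∩ {a | ∃ m : ℕ, 0 < m ∧ (m : ℝ) • a ∈ integral 𝒜 Γ LinearMap.id})

/-- `𝒢` is a group of linear automorphisms of `N^1(Y)` which preserves the integral classes, the closed
movable cone and the effective cone, and which contains the pullbacks by all birational automorphisms
of `Y` which are given by a pair `(f, ψ)` of an affine transformation `f` of `V` and `ψ ∈ Ψ`. The image
of the group of pseudo-automorphisms of `Y` has these properties; if the canonical class of `Y` is
numerically trivial, this is the image of `Bir(Y)`. -/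
structure IsBirGroup {V R : Type*} [NormedAddCommGroup V] [NormedSpace ℂ V]
    [CommRing R] [Algebra ℂ R] {ρ : ℕ} {𝒜 : Cl ρ → Submodule ℂ R} (Ψ : Subgroup (R ≃ₐ[ℂ] R))
    {Γ : Grp V R} (𝒢 : LinGrp (NS 𝒜 Γ)) : Prop where
  int : Preserves 𝒢 (integral 𝒜 Γ LinearMap.id)
  mov : Preserves 𝒢 (movC 𝒜 Γ)
  eff : Preserves 𝒢 (effCone 𝒜 Γ LinearMap.id)
  pull : ∀ g : Elt V R, g.2 ∈ Ψ → NormalizesP 𝒜 Γ g → ∀ G, IsPullbackP g G → G ∈ 𝒢

/-- The cone `K` has a rational polyhedral fundamental domain for the action of `𝒢`. -/
def HasDomain {V R : Type*} [NormedAddCommGroup V] [NormedSpace ℂ V] [CommRing R] [Algebra ℂ R]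
    {ρ : ℕ} {𝒜 : Cl ρ → Submodule ℂ R} {Γ : Grp V R} (𝒢 : LinGrp (NS 𝒜 Γ)) (K : Set (NS 𝒜 Γ)) :
    Prop :=
  ∃ S : Finset (NS 𝒜 Γ), ↑S ⊆ integral 𝒜 Γ LinearMap.id ∧ cone S ⊆ K ∧ IsFundDomain 𝒢 K (cone S)

/-- Let `F` be the product of the varieties `F_i`, and let `Ψ` be a group of pseudo-automorphisms of
`F` which contains the groups `Ψ' i` acting on the factors. Let `Y = (V × F) / Γ` be a projective
quotient of `A × F` by a finite group contained in `Ψ`, such that no element of `Γ` acts trivially on
`F` and as a reflection on `V`. If for each `i` the translates under `Ψ' i` of a rational polyhedral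
cone in the closed movable cone cover the interior of the movable cone of `F_i`, then `Mov^+(Y)` has a
rational polyhedral fundamental domain. If for each `i` the translates under `Ψ' i` of a rational
polyhedral cone in `Mov^e(F_i)` cover `Mov^e(F_i)`, then `Mov^e(Y)` is equal to `Mov^+(Y)` and has a
rational polyhedral fundamental domain. -/
theorem result {V R : Type*} [NormedAddCommGroup V] [NormedSpace ℂ V] [FiniteDimensional ℂ V]
    [CommRing R] [IsDomain R] [Algebra ℂ R] {ρ k : ℕ}
    (𝒜 : Cl ρ → Submodule ℂ R) [GradedAlgebra 𝒜] (u : Cl ρ) (Ψ : Subgroup (R ≃ₐ[ℂ] R))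
    (hF : IsVariety 𝒜 u Ψ)
    {ρ' : Fin k → ℕ} {R' : Fin k → Type*} [∀ i, CommRing (R' i)] [∀ i, IsDomain (R' i)]
    [∀ i, Algebra ℂ (R' i)] (ℬ : ∀ i, Cl (ρ' i) → Submodule ℂ (R' i)) [∀ i, GradedAlgebra (ℬ i)]
    (p : ∀ i, R' i →ₐ[ℂ] R) (d : Cl ρ ≃+ ∀ i, Cl (ρ' i)) (hprod : IsProduct 𝒜 ℬ p d)
    (Ψ' : ∀ i, Subgroup (R' i ≃ₐ[ℂ] R' i)) (hΨ : ContainsProduct p Ψ' Ψ)
    (Γ : Grp V R) (hY : IsQuotient 𝒜 u Γ) (hΓ : ∀ γ ∈ Γ, γ.2 ∈ Ψ)
    (hproj : ∃ (L : Sheaf 𝒜 Γ) (H : V → V → ℂ), L.IsChern H ∧ IsPositiveForm H)
    (hK : ∀ v, ¬ OnMirror (vert 𝒜 Γ) v)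
    (𝒢 : LinGrp (NS 𝒜 Γ)) (h𝒢 : IsBirGroup Ψ 𝒢) :
    ((∀ i, ∃ (n : ℕ) (w : Fin n → Cl (ρ' i)), HoldsBig (ℬ i) (Ψ' i) w) →
      HasDomain 𝒢 (movPlus 𝒜 Γ)) ∧
    ((∀ i, ∃ (n : ℕ) (w : Fin n → Cl (ρ' i)), HoldsM (ℬ i) (Ψ' i) w) →
      HasDomain 𝒢 (movEff 𝒜 Γ) ∧ movEff 𝒜 Γ = movPlus 𝒜 Γ) := by
  constructor
  · intro h
    choose n w hw using h
    obtain ⟨N, W, hW⟩ := holds_prodBig hF hprod hΨ hw
    exact final_plus hF hW hY hΓ hproj hK 𝒢 h𝒢.int h𝒢.mov h𝒢.pull
  · intro h
    choose n w hw using h
    obtain ⟨N, W, hW⟩ := holds_prod hF hprod hΨ hw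
    exact final_abs hF hW hY hΓ hproj hK 𝒢 h𝒢.int
      (fun g hg a ha => ⟨h𝒢.mov g hg a ha.1, h𝒢.eff g hg a ha.2⟩) h𝒢.pull

end Pool.Agent.Results.MP_e39d36_ag.BeauvilleBogomolov
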